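import Pool.Agent.H36.PTI.Main

/-!
Site percolation at 1/2 on transient planar triangulations.
-/

set_option autoImplicit false
open MeasureTheory Pool.H36.PTI

namespace Pool.Agent.Results.MP_562c5f_pr.SitePercolationHalf

/-- **Theorem.**  Let `T` be the set of the triangles of a triangulation of an open disk whose
1-skeleton has bounded degree and is transient.  Declare every vertex open with probability `1/2`,
independently: let `O v`, `v ∈ V`, be independent events of probability `1/2`, the event `O v` being
that `v` is open.  Then almost surely there is an infinite open cluster. -/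
theorem result {V : Type} (T : Set (Finset V)) (hT : IsDiskTriangulation T)
    (hb : BoundedDegree (skeleton T)) (ht : Transient (skeleton T)) {Ω : Type}
    [MeasurableSpace Ω] (P : Measure Ω) [IsProbabilityMeasure P] (O : V → Set Ω)
    (hm : ∀ v, MeasurableSet (O v)) (hp : ∀ v, P (O v) = 1 / 2)
    (hi : ProbabilityTheory.iIndepSet O P) :
    ∀ᵐ ω ∂P, ∃ c : ((skeleton T).induce {v | ω ∈ O v}).ConnectedComponent, c.supp.Infinite :=
  site_percolation_half T hT hb ht P O hm hp hi

end Pool.Agent.Results.MP_562c5f_pr.SitePercolationHalf
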